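import Mathlib

/-! Monomial operators on the Hilbert space of square summable families. -/

namespace Q89

open Filter Topology

/-- Square summable families. -/
noncomputable abbrev HH (ι : Type*) : Type _ := ↥(lp (fun _ : ι => ℂ) 2)

namespace HH

variable {ι : Type*}

theorem summable_sq (f : HH ι) : Summable fun i => ‖f i‖ ^ 2 := by
  have := (lp.memℓp f).summable (by norm_num)
  simpa using this

theorem norm_sq (f : HH ι) : ‖f‖ ^ 2 = ∑' i, ‖f i‖ ^ 2 := by
  have := lp.norm_rpow_eq_tsum (p := 2) (by norm_num) f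
  simpa using this

theorem mem_of_summable {f : ι → ℂ} (h : Summable fun i => ‖f i‖ ^ 2) :
    Memℓp f (2 : ENNReal) := by
  apply memℓp_gen
  simpa using h

/-- Monomial operator: f is sent to c times (f composed with the permutation). -/
noncomputable def mono (c : ι → ℂ) (hc : ∀ i, ‖c i‖ = 1) (σ : ι ≃ ι) : HH ι →L[ℂ] HH ι :=
  LinearMap.mkContinuous
    { toFun := fun f => ⟨fun i => c i * f (σ i), mem_of_summable (by
        have := (summable_sq f).comp_injective σ.injective
        refine this.congr fun i => ?_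
        simp [hc])⟩
      map_add' := fun f g => by
        ext i
        exact mul_add _ _ _
      map_smul' := fun a f => by
        ext i
        simp only [lp.coeFn_smul, Pi.smul_apply, smul_eq_mul, RingHom.id_apply]
        ring } 1 (fun f => by
      rw [one_mul]
      refine le_of_sq_le_sq ?_ (norm_nonneg _)
      rw [norm_sq, norm_sq, ← σ.tsum_eq (fun i => ‖f i‖ ^ 2)]
      simp [hc])

@[simp] theorem mono_apply (c : ι → ℂ) (hc : ∀ i, ‖c i‖ = 1) (σ : ι ≃ ι) (f : HH ι) (i : ι) :
    mono c hc σ f i = c i * f (σ i) := rfl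

theorem norm_mono (c : ι → ℂ) (hc : ∀ i, ‖c i‖ = 1) (σ : ι ≃ ι) (f : HH ι) :
    ‖mono c hc σ f‖ = ‖f‖ := by
  have : ‖mono c hc σ f‖ ^ 2 = ‖f‖ ^ 2 := by
    rw [norm_sq, norm_sq, ← σ.tsum_eq (fun i => ‖f i‖ ^ 2)]
    simp [hc]
  exact (sq_eq_sq₀ (norm_nonneg _) (norm_nonneg _)).mp this

theorem mono_star_mul (c : ι → ℂ) (hc : ∀ i, ‖c i‖ = 1) (σ : ι ≃ ι) :
    star (mono c hc σ) * mono c hc σ = 1 := by
  have := (ContinuousLinearMap.norm_map_iff_adjoint_comp_self (mono c hc σ)).mp (norm_mono c hc σ)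
  rw [ContinuousLinearMap.star_eq_adjoint]
  exact this

theorem mono_star_of_invol (c : ι → ℂ) (hc : ∀ i, ‖c i‖ = 1) (σ : ι ≃ ι)
    (h : mono c hc σ * mono c hc σ = 1) : star (mono c hc σ) = mono c hc σ := by
  calc star (mono c hc σ) = star (mono c hc σ) * (mono c hc σ * mono c hc σ) := by rw [h, mul_one]
    _ = mono c hc σ := by rw [← mul_assoc, mono_star_mul, one_mul]

/-- Basis vector. -/
noncomputable def δ [DecidableEq ι] (i : ι) : HH ι := lp.single 2 i (1 : ℂ)

theorem δ_apply [DecidableEq ι] (i j : ι) : (δ i : HH ι) j = if j = i then 1 else 0 := by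
  simp only [δ, lp.single_apply, Pi.single_apply]

theorem inner_δ [DecidableEq ι] (i : ι) (f : HH ι) : inner ℂ (δ i : HH ι) f = f i := by
  rw [δ, lp.inner_single_left]; simp

theorem norm_δ [DecidableEq ι] (i : ι) : ‖(δ i : HH ι)‖ = 1 := by
  rw [δ, lp.norm_single (by norm_num)]; simp

/-- An operator killing every basis vector is zero. -/
theorem ext_δ [DecidableEq ι] {T : HH ι →L[ℂ] HH ι} (h : ∀ i, T (δ i) = 0) : T = 0 := by
  ext1 f
  have h1 := lp.hasSum_single (p := 2) (by norm_num) f
  have h2 : HasSum (fun i => T (lp.single 2 i (f i))) (T f) := h1.mapL T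
  have h3 : ∀ i, T (lp.single 2 i (f i)) = 0 := by
    intro i
    have : (lp.single 2 i (f i) : HH ι) = f i • δ i := by
      rw [δ, ← lp.single_smul]; simp
    rw [this, map_smul, h, smul_zero]
  simp only [h3] at h2
  exact h2.unique hasSum_zero

end HH

end Q89
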