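import Mathlib

/-! Positive functionals and their limits along ultrafilters. -/

namespace Q89.TW

open Filter Topology

variable {B : Type*} [NonUnitalCStarAlgebra B]

/-- Positive functional: the value at each star b * b is a nonnegative real. -/
def Pos (ρ : B →L[ℂ] ℂ) : Prop := ∀ b : B, 0 ≤ (ρ (star b * b)).re ∧ (ρ (star b * b)).im = 0

/-- A state: a positive functional of norm one. -/
def IsState (ρ : B →L[ℂ] ℂ) : Prop := ‖ρ‖ = 1 ∧ Pos ρ

theorem ulim {ι : Type*} (F : Ultrafilter ι) (ρ : ι → (B →L[ℂ] ℂ)) (h : ∀ i, ‖ρ i‖ ≤ 1) :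
    ∃ σ : B →L[ℂ] ℂ, ‖σ‖ ≤ 1 ∧ ∀ x, Tendsto (fun i => ρ i x) F (𝓝 (σ x)) := by
  classical
  let r : ι → WeakDual ℂ B := fun i => StrongDual.toWeakDual (ρ i)
  have hc := WeakDual.isCompact_closedBall (𝕜 := ℂ) (E := B) 0 1
  have hmem : ∀ᶠ i in (F : Filter ι), r i ∈
      (WeakDual.toStrongDual ⁻¹' Metric.closedBall (0 : StrongDual ℂ B) 1) := by
    refine Eventually.of_forall (fun i => ?_)
    simpa [r] using h i
  obtain ⟨σ, hσ, hlim⟩ := hc.ultrafilter_le_nhds (F.map r) (by
    rw [Ultrafilter.coe_map, le_principal_iff]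
    exact hmem)
  refine ⟨WeakDual.toStrongDual σ, by simpa using hσ, fun x => ?_⟩
  have h1 : Tendsto r F (𝓝 σ) := by
    rw [Ultrafilter.coe_map] at hlim
    exact hlim
  exact ((WeakDual.eval_continuous x).tendsto σ).comp h1

theorem ulim_pos {ι : Type*} (F : Ultrafilter ι) (ρ : ι → (B →L[ℂ] ℂ)) (h : ∀ i, ‖ρ i‖ ≤ 1)
    (hp : ∀ i, Pos (ρ i)) :
    ∃ σ : B →L[ℂ] ℂ, ‖σ‖ ≤ 1 ∧ Pos σ ∧ ∀ x, Tendsto (fun i => ρ i x) F (𝓝 (σ x)) := by
  obtain ⟨σ, h1, h2⟩ := ulim F ρ h
  refine ⟨σ, h1, fun b => ⟨?_, ?_⟩, h2⟩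
  · have h3 := (Complex.continuous_re.tendsto _).comp (h2 (star b * b))
    exact ge_of_tendsto h3 (Eventually.of_forall fun i => (hp i b).1)
  · have h3 := (Complex.continuous_im.tendsto _).comp (h2 (star b * b))
    have h4 : Tendsto (fun _ : ι => (0 : ℝ)) F (𝓝 0) := tendsto_const_nhds
    refine tendsto_nhds_unique h3 (h4.congr fun i => ?_)
    exact ((hp i b).2).symm

theorem ulim_const {ι : Type*} (F : Ultrafilter ι) {f : ι → ℂ} {y c : ℂ}
    (h : Tendsto f F (𝓝 y)) (hc : ∀ᶠ i in (F : Filter ι), f i = c) : y = c :=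
  tendsto_nhds_unique h (tendsto_const_nhds.congr' (hc.mono fun _ hi => hi.symm))

/-- Cauchy-Schwarz in the degenerate case. -/
theorem Pos.null {ρ : B →L[ℂ] ℂ} (hρ : Pos ρ) {b : B} (hb : ρ (star b * b) = 0) (a : B) :
    ρ (star a * b) = 0 ∧ ρ (star b * a) = 0 := by
  set X := ρ (star a * b) with hX
  set Y := ρ (star b * a) with hY
  have key : ∀ t : ℂ, 0 ≤ (ρ (star a * a) + t * X + star t * Y).re ∧
      (ρ (star a * a) + t * X + star t * Y).im = 0 := by
    intro t
    have h := hρ (a + t • b)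
    have e : ρ (star (a + t • b) * (a + t • b)) = ρ (star a * a) + t * X + star t * Y := by
      have : star (a + t • b) * (a + t • b) = star a * a + t • (star a * b) +
          star t • (star b * a) + (star t * t) • (star b * b) := by
        rw [star_add, star_smul, add_mul, mul_add, mul_add, mul_smul_comm, smul_mul_assoc,
          smul_mul_assoc, mul_smul_comm, smul_smul]
        abel
      rw [this]
      simp only [map_add, map_smul, smul_eq_mul, hb, mul_zero, add_zero, hX, hY]
    rwa [e] at h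
  have h0 := (key 0).2
  simp only [zero_mul, add_zero, star_zero] at h0
  have h1 := (key 1).2
  have h2 := (key Complex.I).2
  simp only [Complex.add_im, h0, one_mul, star_one, zero_add, Complex.mul_im, Complex.I_re,
    Complex.I_im, zero_mul, Complex.star_def, Complex.conj_I, Complex.neg_re, Complex.neg_im,
    neg_zero] at h1 h2
  -- h1 : X.im + Y.im = 0, h2 : X.re - Y.re = 0
  have hYX : Y = star X := by
    apply Complex.ext
    · simp only [Complex.star_def, Complex.conj_re]; linarith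
    · simp only [Complex.star_def, Complex.conj_im]; linarith
  have hX0 : X = 0 := by
    by_contra hne
    have hpos : 0 < ‖X‖ ^ 2 := by positivity
    set c := (ρ (star a * a)).re with hc
    set s : ℝ := -((|c| + 1) / ‖X‖ ^ 2) with hs
    have h3 := (key ((s : ℂ) * star X)).1
    have e1 : ((s : ℂ) * star X) * X = ((s * ‖X‖ ^ 2 : ℝ) : ℂ) := by
      rw [mul_assoc, Complex.star_def, Complex.conj_mul']; push_cast; ring
    have e2 : star ((s : ℂ) * star X) * Y = ((s * ‖X‖ ^ 2 : ℝ) : ℂ) := by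
      rw [hYX, star_mul, star_star, Complex.star_def, Complex.conj_ofReal]
      have : X * (s : ℂ) * (starRingEnd ℂ) X = (s : ℂ) * (X * (starRingEnd ℂ) X) := by ring
      rw [this, Complex.mul_conj']; push_cast; ring
    rw [e1, e2, Complex.add_re, Complex.add_re, Complex.ofReal_re] at h3
    have e3 : s * ‖X‖ ^ 2 = -(|c| + 1) := by
      rw [hs]; field_simp
    rw [e3] at h3
    have := le_abs_self c
    have := abs_nonneg c
    linarith
  exact ⟨hX0, by rw [hYX, hX0, star_zero]⟩

end Q89.TW
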