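import Mathlib
import Pool.Agent.Q89.TW.Func

/-! Crossed-product type system: a countable elementary two-group acting on an uncountable one. -/

namespace Q89.TW

open Filter Topology

/-- The countable group. -/
abbrev W := ℕ →₀ ZMod 2
/-- Its (uncountable) algebraic dual. -/
abbrev Γ := W →ₗ[ZMod 2] ZMod 2

/-- The sign character of the two-element group. -/
noncomputable def sg (a : ZMod 2) : ℂ := if a = 0 then 1 else -1

theorem sg_zero : sg 0 = 1 := by simp [sg]
theorem sg_one : sg 1 = -1 := by simp [sg]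
theorem zm2 (a : ZMod 2) : a = 0 ∨ a = 1 := by
  revert a; decide
theorem sg_add (a b : ZMod 2) : sg (a + b) = sg a * sg b := by
  rcases zm2 a with rfl | rfl <;> rcases zm2 b with rfl | rfl
  · simp [sg_zero]
  · simp [sg_zero, sg_one]
  · simp [sg_zero, sg_one]
  · have : (1 + 1 : ZMod 2) = 0 := by decide
    rw [this, sg_zero, sg_one]; norm_num
theorem sg_mul_self (a : ZMod 2) : sg a * sg a = 1 := by
  rcases zm2 a with rfl | rfl <;> simp [sg_zero, sg_one]
theorem star_sg (a : ZMod 2) : star (sg a) = sg a := by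
  rcases zm2 a with rfl | rfl <;> simp [sg_zero, sg_one]

theorem W.exists_dual {w : W} (hw : w ≠ 0) : ∃ γ : Γ, γ w = 1 := by
  obtain ⟨n, hn⟩ := Finsupp.ne_iff.mp hw
  refine ⟨Finsupp.lapply n, ?_⟩
  rcases zm2 (w n) with h | h
  · exact absurd h hn
  · simpa using h

theorem Γ.exists_pt {γ : Γ} (h : γ ≠ 0) : ∃ w : W, γ w = 1 := by
  by_contra hcon
  push Not at hcon
  apply h
  ext1 n
  ext
  rcases zm2 (γ (Finsupp.single n 1)) with h1 | h1
  · simpa using h1
  · exact absurd h1 (hcon _)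

theorem Γ.separate (s : Set Γ) (hs : s.Finite) {γ : Γ} (h : γ ∉ Submodule.span (ZMod 2) s) :
    ∃ w : W, (∀ γ' ∈ s, γ' w = 0) ∧ γ w = 1 := by
  by_contra hcon
  push Not at hcon
  apply h
  have := hs.to_subtype
  have := mem_span_of_iInf_ker_le_ker (K := γ) (L := fun i : s => (i : Γ)) (by
    intro w hw
    simp only [Submodule.mem_iInf, LinearMap.mem_ker] at hw ⊢
    rcases zm2 (γ w) with h1 | h1
    · exact h1
    · exact absurd h1 (hcon w (fun γ' h' => hw ⟨γ', h'⟩)))
  simpa using this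

/-- The data used in the counterexample. -/
structure Sys (A : Type*) [CStarAlgebra A] where
  U : Γ → A
  L : W → A
  U_zero : U 0 = 1
  U_add : ∀ a b, U (a + b) = U a * U b
  U_star : ∀ a, star (U a) = U a
  L_zero : L 0 = 1
  L_add : ∀ a b, L (a + b) = L a * L b
  L_star : ∀ a, star (L a) = L a
  rel : ∀ w γ, L w * U γ = sg (γ w) • (U γ * L w)
  dense : ∀ a : A, a ∈ closure
    (Submodule.span ℂ (Set.range fun p : Γ × W => U p.1 * L p.2) : Set A)
  ψ : A →L[ℂ] ℂ
  ψ_norm : ‖ψ‖ ≤ 1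
  ψ_pos : Pos ψ
  ψ_val : ∀ γ w, ψ (U γ * L w) = if w = 0 then 1 else 0
  faithful : ∀ a, (∀ w, ψ (star (a * L w) * (a * L w)) = 0) → a = 0
  φ : A →L[ℂ] ℂ
  φ_norm : ‖φ‖ ≤ 1
  φ_pos : Pos φ
  φ_val : ∀ w, φ (L w) = 1

namespace Sys

variable {A : Type*} [CStarAlgebra A] (S : Sys A)

theorem g2 (a : Γ) : a + a = 0 := by
  ext n; simp only [LinearMap.add_apply, LinearMap.zero_apply, LinearMap.comp_apply]
  generalize a _ = x
  revert x; decide

theorem w2 (a : W) : a + a = 0 := by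
  ext n
  simp only [Finsupp.add_apply, Finsupp.zero_apply]
  generalize a n = x
  revert x; decide

theorem U_sq (a : Γ) : S.U a * S.U a = 1 := by rw [← S.U_add, g2, S.U_zero]
theorem L_sq (a : W) : S.L a * S.L a = 1 := by rw [← S.L_add, w2, S.L_zero]
theorem U_comm (a b : Γ) : S.U a * S.U b = S.U b * S.U a := by rw [← S.U_add, ← S.U_add, add_comm]
theorem L_comm (a b : W) : S.L a * S.L b = S.L b * S.L a := by rw [← S.L_add, ← S.L_add, add_comm]

theorem conj_U (w : W) (γ : Γ) : S.L w * S.U γ * S.L w = sg (γ w) • S.U γ := by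
  rw [S.rel, smul_mul_assoc, mul_assoc, S.L_sq, mul_one]

theorem rel' (w : W) (γ : Γ) : S.U γ * S.L w = sg (γ w) • (S.L w * S.U γ) := by
  rw [S.rel, smul_smul, sg_mul_self, one_smul]

theorem conj_L (w : W) (γ : Γ) : S.U γ * S.L w * S.U γ = sg (γ w) • S.L w := by
  rw [S.rel', smul_mul_assoc, mul_assoc, S.U_sq, mul_one]

/-- A positive functional with value one at a symmetry is insensitive to that symmetry. -/
theorem absorb {A : Type*} [CStarAlgebra A] {ρ : A →L[ℂ] ℂ} (hp : Pos ρ) {u : A} (hs : star u = u)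
    (hu : u * u = 1)
    (h1 : ρ 1 = 1) (h : ρ u = 1) (x : A) : ρ (u * x) = ρ x ∧ ρ (x * u) = ρ x := by
  have h0 : ρ (star (1 - u) * (1 - u)) = 0 := by
    have : star (1 - u) * (1 - u) = 1 + 1 - u - u := by
      rw [star_sub, star_one, hs]
      have : (1 - u) * (1 - u) = 1 - u - u + u * u := by noncomm_ring
      rw [this, hu]; abel
    rw [this]; simp [h, h1]
  have h2 := hp.null h0 (star x)
  have h3 := hp.null h0 x
  rw [star_star] at h2
  constructor
  · have := h3.2
    rw [star_sub, star_one, hs, sub_mul, one_mul, map_sub, sub_eq_zero] at this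
    exact this.symm
  · have := h2.1
    rw [mul_sub, mul_one, map_sub, sub_eq_zero] at this
    exact this.symm

/-- Two continuous functionals agreeing on the generating products agree. -/
theorem eq_of_gen {f g : A →L[ℂ] ℂ} (h : ∀ γ w, f (S.U γ * S.L w) = g (S.U γ * S.L w)) :
    f = g := by
  ext a
  have hcl : IsClosed {a : A | f a = g a} := isClosed_eq f.continuous g.continuous
  have hsub : (Submodule.span ℂ (Set.range fun p : Γ × W => S.U p.1 * S.L p.2) : Set A) ⊆
      {a : A | f a = g a} := by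
    intro x hx
    have : Submodule.span ℂ (Set.range fun p : Γ × W => S.U p.1 * S.L p.2) ≤
        LinearMap.eqLocus (f : A →ₗ[ℂ] ℂ) (g : A →ₗ[ℂ] ℂ) := by
      rw [Submodule.span_le]
      rintro _ ⟨p, rfl⟩
      exact h p.1 p.2
    exact this hx
  exact (hcl.closure_subset_iff.mpr hsub) (S.dense a)

theorem φ_unique {ρ : A →L[ℂ] ℂ} (hp : Pos ρ) (h : ∀ w, ρ (S.L w) = 1) : ρ = S.φ := by
  classical
  have key : ∀ {ρ : A →L[ℂ] ℂ} (hp : Pos ρ) (h : ∀ w, ρ (S.L w) = 1) (γ w),
      ρ (S.U γ * S.L w) = if γ = 0 then 1 else 0 := by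
    intro ρ hp h γ w
    have h1 : ρ 1 = 1 := by rw [← S.L_zero]; exact h 0
    have a1 := fun w x => absorb hp (S.L_star w) (S.L_sq w) h1 (h w) x
    rw [(a1 w _).2]
    split_ifs with hγ
    · rw [hγ, S.U_zero, h1]
    · obtain ⟨v, hv⟩ := Γ.exists_pt hγ
      have e := S.conj_U v γ
      rw [hv, sg_one] at e
      have e2 : ρ (S.L v * S.U γ * S.L v) = ρ (S.U γ) := by
        rw [(a1 v _).2, (a1 v _).1]
      rw [e, map_smul, smul_eq_mul] at e2
      have : (2 : ℂ) * ρ (S.U γ) = 0 := by linear_combination -e2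
      simpa using this
  exact S.eq_of_gen fun γ w => by rw [key hp h, key S.φ_pos S.φ_val]

theorem ψ_unique {ρ : A →L[ℂ] ℂ} (hp : Pos ρ) (h : ∀ γ, ρ (S.U γ) = 1) : ρ = S.ψ := by
  refine S.eq_of_gen fun γ w => ?_
  rw [S.ψ_val]
  have h1 : ρ 1 = 1 := by rw [← S.U_zero]; exact h 0
  have a1 := fun γ x => absorb hp (S.U_star γ) (S.U_sq γ) h1 (h γ) x
  rw [(a1 γ _).1]
  split_ifs with hw
  · rw [hw, S.L_zero, h1]
  · obtain ⟨v, hv⟩ := W.exists_dual hw
    have e := S.conj_L w v
    rw [hv, sg_one] at e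
    have e2 : ρ (S.U v * S.L w * S.U v) = ρ (S.L w) := by
      rw [(a1 v _).2, (a1 v _).1]
    rw [e, map_smul, smul_eq_mul] at e2
    have : (2 : ℂ) * ρ (S.L w) = 0 := by linear_combination -e2
    simpa using this

theorem ψ_U (γ : Γ) : S.ψ (S.U γ) = 1 := by
  have := S.ψ_val γ 0
  rwa [S.L_zero, mul_one, if_pos rfl] at this

end Sys

end Q89.TW
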