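import Mathlib
import Pool.Agent.Q89.TW.Sys

/-! Simplicity. -/

namespace Q89.TW

open Filter Topology

namespace Sys

variable {A : Type*} [CStarAlgebra A] (S : Sys A)

/-- Product of the projections attached to a list of symmetries. -/
noncomputable def E (l : List Γ) : A := (l.map fun γ => (1 / 2 : ℂ) • (1 + S.U γ)).prod

theorem E_nil : S.E [] = 1 := by simp [E]
theorem E_cons (γ : Γ) (l : List Γ) : S.E (γ :: l) = (1 / 2 : ℂ) • (1 + S.U γ) * S.E l := by
  simp [E]

theorem E_append (l l' : List Γ) : S.E (l ++ l') = S.E l * S.E l' := by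
  simp [E]

theorem U_E_comm (γ : Γ) (l : List Γ) : S.U γ * S.E l = S.E l * S.U γ := by
  induction l with
  | nil => simp [E_nil]
  | cons δ l ih =>
    rw [E_cons, ← mul_assoc, mul_smul_comm, mul_add, mul_one, S.U_comm γ δ, mul_assoc, ← ih]
    simp only [smul_mul_assoc, add_mul, one_mul, mul_assoc, smul_add]

theorem U_E {γ : Γ} {l : List Γ} (h : γ ∈ l) : S.U γ * S.E l = S.E l := by
  induction l with
  | nil => simp at h
  | cons δ l ih =>
    rw [E_cons, ← mul_assoc]
    rcases List.mem_cons.mp h with rfl | h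
    · rw [mul_smul_comm, mul_add, mul_one, S.U_sq, add_comm]
    · have : S.U γ * ((1 / 2 : ℂ) • (1 + S.U δ)) = ((1 / 2 : ℂ) • (1 + S.U δ)) * S.U γ := by
        rw [mul_smul_comm, smul_mul_assoc, mul_add, add_mul, S.U_comm γ δ]; simp
      rw [this, mul_assoc, ih h]

theorem E_E (l : List Γ) : S.E l * S.E l = S.E l := by
  have key : ∀ l' : List Γ, (∀ γ ∈ l', γ ∈ l) → S.E l' * S.E l = S.E l := by
    intro l'
    induction l' with
    | nil => intro _; rw [E_nil, one_mul]
    | cons δ l' ih =>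
      intro h
      rw [E_cons, mul_assoc, ih (fun γ hγ => h γ (List.mem_cons_of_mem _ hγ)), smul_mul_assoc,
        add_mul, S.U_E (h δ List.mem_cons_self), one_mul, ← two_smul ℂ, smul_smul]
      norm_num
  exact key l fun _ h => h

theorem E_star (l : List Γ) : star (S.E l) = S.E l := by
  induction l with
  | nil => simp [E_nil]
  | cons δ l ih =>
    rw [E_cons, star_mul, ih, star_smul, star_add, star_one, S.U_star]
    have : star (1 / 2 : ℂ) = 1 / 2 := by simp
    rw [this, mul_smul_comm, smul_mul_assoc, mul_add, add_mul, mul_one, one_mul, S.U_E_comm]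

theorem E_norm_le (l : List Γ) : ‖S.E l‖ ≤ 1 := by
  have h : ‖S.E l‖ * ‖S.E l‖ = ‖S.E l‖ := by
    rw [← CStarRing.norm_star_mul_self, S.E_star, S.E_E]
  nlinarith [norm_nonneg (S.E l)]

/-- If the symmetry reverses sign on w, compression kills the translation. -/
theorem E_L_E {l : List Γ} {γ : Γ} (h : γ ∈ l) {w : W} (hw : γ w = 1) :
    S.E l * S.L w * S.E l = 0 := by
  have h1 : S.E l * S.L w * S.E l = -(S.E l * S.L w * S.E l) := by
    calc S.E l * S.L w * S.E l = S.E l * S.L w * (S.U γ * S.E l) := by rw [S.U_E h]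
      _ = S.E l * (S.L w * S.U γ) * S.E l := by simp only [mul_assoc]
      _ = -(S.E l * S.U γ * S.L w * S.E l) := by
        rw [S.rel, hw, sg_one]; simp [mul_assoc]
      _ = -(S.E l * S.L w * S.E l) := by rw [← S.U_E_comm, S.U_E h]
  have h2 : (2 : ℂ) • (S.E l * S.L w * S.E l) = 0 := by
    rw [two_smul]; nth_rewrite 1 [h1]; simp
  simpa using h2

theorem compress (p : A) (hp : p ∈ Submodule.span ℂ (Set.range fun p : Γ × W => S.U p.1 * S.L p.2)) :
    ∃ l0 : List Γ, ∀ l, (∀ γ ∈ l0, γ ∈ l) → S.E l * p * S.E l = S.ψ p • S.E l := by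
  induction hp using Submodule.span_induction with
  | mem x hx =>
    obtain ⟨⟨γ, w⟩, rfl⟩ := hx
    simp only
    by_cases hw : w = 0
    · refine ⟨[γ], fun l hl => ?_⟩
      have hγ := hl γ (by simp)
      rw [S.ψ_val, if_pos hw, one_smul, hw, S.L_zero, mul_one, mul_assoc, S.U_E hγ, S.E_E]
    · obtain ⟨δ, hδ⟩ := W.exists_dual hw
      refine ⟨[δ], fun l hl => ?_⟩
      have hδ' := hl δ (by simp)
      rw [S.ψ_val, if_neg hw, zero_smul, ← mul_assoc, ← S.U_E_comm, mul_assoc (S.U γ),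
        mul_assoc (S.U γ), S.E_L_E hδ' hδ, mul_zero]
  | zero => exact ⟨[], fun l _ => by simp⟩
  | add x y _ _ hx hy =>
    obtain ⟨l1, h1⟩ := hx
    obtain ⟨l2, h2⟩ := hy
    refine ⟨l1 ++ l2, fun l hl => ?_⟩
    rw [mul_add, add_mul, h1 l (fun γ h => hl γ (by simp [h])),
      h2 l (fun γ h => hl γ (by simp [h])), map_add, add_smul]
  | smul c x _ hx =>
    obtain ⟨l1, h1⟩ := hx
    refine ⟨l1, fun l hl => ?_⟩
    rw [mul_smul_comm, smul_mul_assoc, h1 l hl, map_smul, smul_eq_mul, mul_smul]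

theorem U_E_span {l : List Γ} {γ : Γ} (h : γ ∈ Submodule.span (ZMod 2) {δ | δ ∈ l}) :
    S.U γ * S.E l = S.E l := by
  induction h using Submodule.span_induction with
  | mem x hx => exact S.U_E hx
  | zero => rw [S.U_zero, one_mul]
  | add x y _ _ hx hy => rw [S.U_add, mul_assoc, hy, hx]
  | smul c x _ hx =>
    rcases zm2 c with rfl | rfl
    · rw [zero_smul, S.U_zero, one_mul]
    · rw [one_smul, hx]

theorem conj_E {l : List Γ} {w : W} (h : ∀ γ ∈ l, γ w = 0) : S.L w * S.E l = S.E l * S.L w := by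
  induction l with
  | nil => simp [E_nil]
  | cons δ l ih =>
    have h1 := h δ (by simp)
    have h2 := ih (fun γ hγ => h γ (by simp [hγ]))
    rw [E_cons]
    have h3 : S.L w * ((1 / 2 : ℂ) • (1 + S.U δ)) = ((1 / 2 : ℂ) • (1 + S.U δ)) * S.L w := by
      rw [mul_smul_comm, smul_mul_assoc, mul_add, add_mul, S.rel, h1, sg_zero]; simp
    rw [← mul_assoc, h3, mul_assoc, h2, mul_assoc]

theorem one_mem_of_E (I : TwoSidedIdeal A) (l : List Γ) (h : S.E l ∈ I) : (1 : A) ∈ I := by
  induction l with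
  | nil => rwa [E_nil] at h
  | cons γ l ih =>
    apply ih
    by_cases hγ : γ ∈ Submodule.span (ZMod 2) {δ | δ ∈ l}
    · rw [E_cons, smul_mul_assoc, add_mul, one_mul, S.U_E_span hγ, ← two_smul ℂ, smul_smul] at h
      norm_num at h
      exact h
    · obtain ⟨w, h1, h2⟩ := Γ.separate {δ | δ ∈ l} (List.finite_toSet l) hγ
      have h3 : S.L w * S.E (γ :: l) * S.L w ∈ I := I.mul_mem_right _ _ (I.mul_mem_left _ _ h)
      have h4 : S.L w * S.E (γ :: l) * S.L w = (1 / 2 : ℂ) • (1 - S.U γ) * S.E l := by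
        rw [E_cons, ← mul_assoc, mul_smul_comm, mul_add, mul_one, S.rel, h2, sg_one]
        calc (1 / 2 : ℂ) • (S.L w + (-1 : ℂ) • (S.U γ * S.L w)) * S.E l * S.L w
            = (1 / 2 : ℂ) • (1 - S.U γ) * (S.L w * S.E l) * S.L w := by
              simp only [smul_mul_assoc, add_mul, one_mul, neg_smul, one_smul, neg_mul,
                mul_assoc, sub_eq_add_neg]
          _ = (1 / 2 : ℂ) • (1 - S.U γ) * S.E l * (S.L w * S.L w) := by
              rw [S.conj_E h1]; simp only [mul_assoc]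
          _ = _ := by rw [S.L_sq, mul_one]
      have h5 := I.add_mem h h3
      rw [h4, E_cons] at h5
      have h6 : (1 / 2 : ℂ) • (1 + S.U γ) * S.E l + (1 / 2 : ℂ) • (1 - S.U γ) * S.E l
          = S.E l := by
        rw [← add_mul, ← smul_add]
        have : (1 + S.U γ) + (1 - S.U γ) = (2 : ℂ) • (1 : A) := by
          rw [two_smul]; abel
        rw [this, smul_smul]
        norm_num
      rwa [h6] at h5

include S in
theorem simple (I : TwoSidedIdeal A) : I = ⊥ ∨ I = ⊤ := by
  by_cases hI : ∀ x ∈ I, x = 0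
  · left
    refine le_antisymm (fun x hx => ?_) bot_le
    rw [hI x hx]; exact TwoSidedIdeal.zero_mem _
  · right
    push Not at hI
    obtain ⟨a0, ha0, hne⟩ := hI
    obtain ⟨w, hw⟩ : ∃ w, S.ψ (star (a0 * S.L w) * (a0 * S.L w)) ≠ 0 := by
      by_contra hcon
      push Not at hcon
      exact hne (S.faithful a0 hcon)
    set a := star (a0 * S.L w) * (a0 * S.L w) with ha
    have haI : a ∈ I := I.mul_mem_left _ _ (I.mul_mem_right _ _ ha0)
    have hd : S.ψ a ≠ 0 := hw
    set d := S.ψ a with hd'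
    have hdn : 0 < ‖d‖ := norm_pos_iff.mpr hd
    obtain ⟨p, hp, hap⟩ := Metric.mem_closure_iff.mp (S.dense a) (‖d‖ / 8) (by positivity)
    rw [dist_eq_norm] at hap
    obtain ⟨l0, hl0⟩ := S.compress p hp
    have hE := hl0 l0 fun _ h => h
    set e := S.E l0 with he
    have hen : ‖e‖ ≤ 1 := S.E_norm_le l0
    have hee : e * e = e := S.E_E l0
    set c : A := d⁻¹ • (e * a * e) with hc
    have hcI : c ∈ I := by
      have h1 : e * a * e ∈ I := I.mul_mem_right _ _ (I.mul_mem_left _ _ haI)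
      have : c = (d⁻¹ • (1 : A)) * (e * a * e) := by rw [smul_mul_assoc, one_mul]
      rw [this]
      exact I.mul_mem_left _ _ h1
    set r := e - c with hr
    have hrn : ‖r‖ < 1 := by
      have h1 : d • r = -(e * (a - p) * e) + (d - S.ψ p) • e := by
        rw [hr, smul_sub, hc, smul_smul, mul_inv_cancel₀ hd, one_smul, mul_sub, sub_mul, hE,
          sub_smul]
        abel
      have h2 : ‖e * (a - p) * e‖ ≤ ‖a - p‖ := by
        calc ‖e * (a - p) * e‖ ≤ ‖e * (a - p)‖ * ‖e‖ := norm_mul_le _ _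
          _ ≤ (‖e‖ * ‖a - p‖) * ‖e‖ := by gcongr; exact norm_mul_le _ _
          _ ≤ (1 * ‖a - p‖) * 1 := by gcongr
          _ = ‖a - p‖ := by ring
      have h3 : ‖d - S.ψ p‖ ≤ ‖a - p‖ := by
        rw [hd', ← map_sub]
        calc ‖S.ψ (a - p)‖ ≤ ‖S.ψ‖ * ‖a - p‖ := S.ψ.le_opNorm _
          _ ≤ 1 * ‖a - p‖ := by gcongr; exact S.ψ_norm
          _ = _ := one_mul _
      have h4 : ‖d‖ * ‖r‖ ≤ ‖d‖ / 8 + ‖d‖ / 8 := by
        rw [← norm_smul, h1]
        calc ‖-(e * (a - p) * e) + (d - S.ψ p) • e‖ ≤ ‖e * (a - p) * e‖ + ‖(d - S.ψ p) • e‖ := by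
              refine (norm_add_le _ _).trans ?_
              rw [norm_neg]
          _ ≤ ‖a - p‖ + ‖a - p‖ * 1 := by
              rw [norm_smul]; gcongr
          _ ≤ _ := by linarith
      nlinarith
    have hre : r * e = r := by
      rw [hr, sub_mul, hee, hc, smul_mul_assoc, mul_assoc (e * a), hee]
    obtain ⟨v, hv⟩ := isUnit_one_sub_of_norm_lt_one hrn
    have hve : (v : A) * e = c := by
      rw [hv, sub_mul, one_mul, hre, hr]; abel
    have heI : e ∈ I := by
      have : e = ((v⁻¹ : Aˣ) : A) * c := by rw [← hve, ← mul_assoc, Units.inv_mul, one_mul]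
      rw [this]
      exact I.mul_mem_left _ _ hcI
    have h1 := S.one_mem_of_E I l0 heI
    refine le_antisymm le_top (fun x _ => ?_)
    have := I.mul_mem_left x _ h1
    rwa [mul_one] at this

end Sys

end Q89.TW
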