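import Mathlib
import Pool.Agent.Q89.TW.Simple

/-! No extension makes the two pure states equivalent. -/

namespace Q89.TW

open Filter Topology

/-- Pure state: extreme point of the state space. -/
def IsPure {B : Type*} [NonUnitalCStarAlgebra B] (ρ : B →L[ℂ] ℂ) : Prop :=
  ρ ∈ Set.extremePoints ℝ {σ : B →L[ℂ] ℂ | IsState σ}

/-- The functional has exactly one state extension, namely the given one. -/
def UniqueExt {A B : Type*} [NonUnitalCStarAlgebra A] [NonUnitalCStarAlgebra B] (i : A →⋆ₙₐ[ℂ] B)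
    (φ : A →L[ℂ] ℂ) (φ' : B →L[ℂ] ℂ) : Prop :=
  IsState φ' ∧ (∀ a, φ' (i a) = φ a) ∧
    ∀ σ : B →L[ℂ] ℂ, IsState σ → (∀ a, σ (i a) = φ a) → σ = φ'

theorem uncountable_Γ : Uncountable Γ := by
  by_contra hcon
  rw [not_uncountable_iff] at hcon
  classical
  let g : Set ℕ → Γ := fun s => Finsupp.linearCombination (ZMod 2) (fun n => if n ∈ s then 1 else 0)
  have hg : Function.Injective g := by
    intro s t h
    ext n
    have h1 := congrArg (fun γ : Γ => γ (Finsupp.single n 1)) h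
    simp only [g, Finsupp.linearCombination_single, one_smul] at h1
    by_cases hs : n ∈ s <;> by_cases ht : n ∈ t <;> simp_all
  obtain ⟨f, hf⟩ := exists_injective_nat Γ
  exact Function.cantor_injective (f ∘ g) (hf.comp hg)

theorem span_countable {s : Set Γ} (hs : s.Countable) :
    (Submodule.span (ZMod 2) s : Set Γ).Countable := by
  have := hs.to_subtype
  rw [Finsupp.span_eq_range_linearCombination]
  have : (LinearMap.range (Finsupp.linearCombination (ZMod 2) ((↑) : s → Γ)) : Set Γ)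
      = Set.range (Finsupp.linearCombination (ZMod 2) ((↑) : s → Γ)) := by
    ext; simp
  rw [this]
  exact Set.countable_range _

/-- The star embedding as a continuous linear map. -/
noncomputable def clm {A B : Type*} [NonUnitalCStarAlgebra A] [NonUnitalCStarAlgebra B]
    (i : A →⋆ₙₐ[ℂ] B) (hi : Function.Injective i) : A →L[ℂ] B :=
  LinearMap.mkContinuous { toFun := i, map_add' := map_add i, map_smul' := map_smul i } 1
    (fun x => by
      rw [one_mul]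
      exact (NonUnitalStarAlgHom.norm_map i hi x).le)

@[simp] theorem clm_apply {A B : Type*} [NonUnitalCStarAlgebra A] [NonUnitalCStarAlgebra B]
    (i : A →⋆ₙₐ[ℂ] B) (hi : Function.Injective i) (x : A) : clm i hi x = i x := rfl

theorem pos_comp {A B : Type*} [NonUnitalCStarAlgebra A] [NonUnitalCStarAlgebra B]
    (i : A →⋆ₙₐ[ℂ] B) (hi : Function.Injective i) {ρ : B →L[ℂ] ℂ} (hρ : Pos ρ) :
    Pos (ρ.comp (clm i hi)) := by
  intro b
  have := hρ (i b)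
  simpa [map_mul, map_star] using this

theorem norm_comp {A B : Type*} [NonUnitalCStarAlgebra A] [NonUnitalCStarAlgebra B]
    (i : A →⋆ₙₐ[ℂ] B) (hi : Function.Injective i) {ρ : B →L[ℂ] ℂ} (hρ : ‖ρ‖ ≤ 1) :
    ‖ρ.comp (clm i hi)‖ ≤ 1 := by
  refine ContinuousLinearMap.opNorm_le_bound _ zero_le_one (fun x => ?_)
  simp only [ContinuousLinearMap.comp_apply, clm_apply]
  calc ‖ρ (i x)‖ ≤ ‖ρ‖ * ‖i x‖ := ρ.le_opNorm _
    _ ≤ 1 * ‖x‖ := by
      rw [NonUnitalStarAlgHom.norm_map i hi x]; gcongr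

theorem norm_eq_one {B : Type*} [NonUnitalCStarAlgebra B] {ρ : B →L[ℂ] ℂ} (h : ‖ρ‖ ≤ 1) {x : B}
    (hx : ‖x‖ ≤ 1) (h1 : ρ x = 1) : ‖ρ‖ = 1 := by
  refine le_antisymm h ?_
  have h2 := ρ.le_opNorm x
  rw [h1, norm_one] at h2
  nlinarith [norm_nonneg ρ, norm_nonneg x]

namespace Sys

variable {A : Type*} [CStarAlgebra A] (S : Sys A)

include S in
theorem nontriv : Nontrivial A := by
  refine ⟨⟨1, 0, fun h => ?_⟩⟩
  have := S.ψ_U 0
  rw [S.U_zero, h, map_zero] at this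
  exact zero_ne_one this

theorem norm_U (γ : Γ) : ‖S.U γ‖ ≤ 1 := by
  have := S.nontriv
  have h : ‖S.U γ‖ * ‖S.U γ‖ = 1 := by
    rw [← CStarRing.norm_star_mul_self, S.U_star, S.U_sq, CStarRing.norm_one]
  nlinarith [norm_nonneg (S.U γ)]

theorem norm_L (w : W) : ‖S.L w‖ ≤ 1 := by
  have := S.nontriv
  have h : ‖S.L w‖ * ‖S.L w‖ = 1 := by
    rw [← CStarRing.norm_star_mul_self, S.L_star, S.L_sq, CStarRing.norm_one]
  nlinarith [norm_nonneg (S.L w)]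

theorem ψ_state : IsState S.ψ := ⟨norm_eq_one S.ψ_norm (S.norm_U 0) (S.ψ_U 0), S.ψ_pos⟩
theorem φ_state : IsState S.φ := ⟨norm_eq_one S.φ_norm (S.norm_L 0) (S.φ_val 0), S.φ_pos⟩

theorem pure_of_unique {A : Type*} [CStarAlgebra A] {ρ : A →L[ℂ] ℂ} (hst : IsState ρ)
    {ι : Type*} (u : ι → A)
    (hs : ∀ k, ‖u k‖ ≤ 1) (h1 : ∀ k, ρ (u k) = 1)
    (hu : ∀ σ : A →L[ℂ] ℂ, Pos σ → (∀ k, σ (u k) = 1) → σ = ρ) : IsPure ρ := by
  have key : ∀ (σ τ : A →L[ℂ] ℂ), IsState σ → IsState τ → ∀ s t : ℝ, 0 < s → 0 < t → s + t = 1 →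
      s • σ + t • τ = ρ → σ = ρ := by
    intro σ τ hσ hτ s t hs0 ht0 hst1 he
    refine hu σ hσ.2 fun k => ?_
    have e := congrArg (fun f : A →L[ℂ] ℂ => f (u k)) he
    simp only [add_apply, smul_apply, h1] at e
    have b1 : ‖σ (u k)‖ ≤ 1 := by
      calc ‖σ (u k)‖ ≤ ‖σ‖ * ‖u k‖ := σ.le_opNorm _
        _ ≤ 1 * 1 := by rw [hσ.1]; gcongr; exact hs k
        _ = 1 := one_mul _
    have b2 : ‖τ (u k)‖ ≤ 1 := by
      calc ‖τ (u k)‖ ≤ ‖τ‖ * ‖u k‖ := τ.le_opNorm _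
        _ ≤ 1 * 1 := by rw [hτ.1]; gcongr; exact hs k
        _ = 1 := one_mul _
    have c1 := (Complex.re_le_norm (σ (u k))).trans b1
    have c2 := (Complex.re_le_norm (τ (u k))).trans b2
    have e1 := congrArg Complex.re e
    simp only [Complex.add_re, Complex.real_smul, Complex.mul_re, Complex.ofReal_re,
      Complex.ofReal_im, zero_mul, sub_zero, Complex.one_re] at e1
    have r1 : (σ (u k)).re = 1 := by nlinarith
    have n1 := Complex.sq_norm (σ (u k))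
    rw [Complex.normSq_apply, r1] at n1
    have i1 : (σ (u k)).im = 0 := by
      have : (σ (u k)).im * (σ (u k)).im ≤ 0 := by nlinarith [norm_nonneg (σ (u k))]
      nlinarith [mul_self_nonneg (σ (u k)).im]
    exact Complex.ext (by simpa using r1) (by simpa using i1)
  unfold IsPure
  rw [mem_extremePoints]
  refine ⟨hst, fun σ hσ τ hτ hseg => ?_⟩
  obtain ⟨s, t, hs0, ht0, hst1, he⟩ := hseg
  exact ⟨key σ τ hσ hτ s t hs0 ht0 hst1 he,
    key τ σ hτ hσ t s ht0 hs0 (by rw [add_comm]; exact hst1) (by rw [add_comm]; exact he)⟩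

theorem ψ_pure : IsPure S.ψ :=
  pure_of_unique S.ψ_state S.U S.norm_U S.ψ_U fun _ hp h => S.ψ_unique hp h

theorem φ_pure : IsPure S.φ :=
  pure_of_unique S.φ_state S.L S.norm_L S.φ_val fun _ hp h => S.φ_unique hp h

theorem no_ext {B : Type*} [NonUnitalCStarAlgebra B] (i : A →⋆ₙₐ[ℂ] B)
    (hi : Function.Injective i) {φ' ψ' : B →L[ℂ] ℂ} (hφ : UniqueExt i S.φ φ')
    (hψ : UniqueExt i S.ψ ψ') (α : B ≃⋆ₐ[ℂ] B) (hα : ∀ x, φ' x = ψ' (α x)) : False := by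
  classical
  have ni : ∀ x, ‖i x‖ = ‖x‖ := NonUnitalStarAlgHom.norm_map i hi
  -- step one: characterisations
  have P1 : ∀ ρ : B →L[ℂ] ℂ, Pos ρ → ‖ρ‖ ≤ 1 → (∀ γ, ρ (i (S.U γ)) = 1) → ρ = ψ' := by
    intro ρ hp hn h
    have h1 : ρ.comp (clm i hi) = S.ψ := S.ψ_unique (pos_comp i hi hp) h
    refine hψ.2.2 ρ ⟨norm_eq_one hn ((ni _).trans_le (S.norm_U 0)) (h 0), hp⟩ fun a => ?_
    rw [← h1]; rfl
  have P2 : ∀ ρ : B →L[ℂ] ℂ, Pos ρ → ‖ρ‖ ≤ 1 → (∀ w, ρ (i (S.L w)) = 1) → ρ = φ' := by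
    intro ρ hp hn h
    have h1 : ρ.comp (clm i hi) = S.φ := S.φ_unique (pos_comp i hi hp) h
    refine hφ.2.2 ρ ⟨norm_eq_one hn ((ni _).trans_le (S.norm_L 0)) (h 0), hp⟩ fun a => ?_
    rw [← h1]; rfl
  let b : W → B := fun w => α (i (S.L w))
  have hb : ∀ w, ψ' (b w) = 1 := fun w => by
    show ψ' (α _) = 1
    rw [← hα, hφ.2.1, S.φ_val]
  let αh : B →⋆ₙₐ[ℂ] B := (α : B →⋆ₙₐ[ℂ] B)
  have hαi : Function.Injective αh := α.injective
  have P3 : ∀ ρ : B →L[ℂ] ℂ, Pos ρ → ‖ρ‖ ≤ 1 → (∀ w, ρ (b w) = 1) → ρ = ψ' := by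
    intro ρ hp hn h
    have h1 : ρ.comp (clm αh hαi) = φ' := P2 _ (pos_comp αh hαi hp) (norm_comp αh hαi hn) h
    ext x
    obtain ⟨y, rfl⟩ : ∃ y, α y = x := ⟨α.symm x, α.apply_symm_apply x⟩
    rw [← hα, ← h1]; rfl
  -- step two: compactness
  have hcpt : ∀ (w : W) (m : ℕ), ∃ F : Finset Γ, ∀ ρ : B →L[ℂ] ℂ, Pos ρ → ‖ρ‖ ≤ 1 →
      (∀ γ ∈ F, ρ (i (S.U γ)) = 1) → ‖ρ (b w) - 1‖ < 1 / ((m : ℝ) + 1) := by
    intro w m
    by_contra hcon
    push Not at hcon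
    choose ρ hp hn h1 h2 using hcon
    let 𝒰 : Ultrafilter (Finset Γ) := Ultrafilter.of atTop
    obtain ⟨σ, hσn, hσp, hσ⟩ := ulim_pos 𝒰 ρ hn hp
    have h3 : ∀ γ, σ (i (S.U γ)) = 1 := by
      intro γ
      refine ulim_const 𝒰 (hσ _) ?_
      have : ∀ᶠ F in (atTop : Filter (Finset Γ)), {γ} ≤ F := eventually_ge_atTop _
      exact (this.filter_mono (Ultrafilter.of_le _)).mono fun F hF => h1 F γ (by simpa using hF)
    have h4 := P1 σ hσp hσn h3
    have h5 : Tendsto (fun F => ‖ρ F (b w) - 1‖) 𝒰 (𝓝 ‖σ (b w) - 1‖) :=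
      ((hσ (b w)).sub_const 1).norm
    have h6 : 1 / ((m : ℝ) + 1) ≤ ‖σ (b w) - 1‖ :=
      ge_of_tendsto h5 (Eventually.of_forall h2)
    rw [h4, hb, sub_self, norm_zero] at h6
    have : 0 < 1 / ((m : ℝ) + 1) := by positivity
    linarith
  choose F hF using hcpt
  let Γ0 : Set Γ := ⋃ w : W, ⋃ m : ℕ, (F w m : Set Γ)
  have hΓ0 : Γ0.Countable :=
    Set.countable_iUnion fun w => Set.countable_iUnion fun m => (F w m).countable_toSet
  obtain ⟨θ, hθ⟩ : ∃ θ : Γ, θ ∉ Submodule.span (ZMod 2) Γ0 := by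
    by_contra hcon
    push Not at hcon
    have h1 := span_countable hΓ0
    have h2 : (Submodule.span (ZMod 2) Γ0 : Set Γ) = Set.univ := Set.eq_univ_of_forall hcon
    rw [h2, Set.countable_univ_iff] at h1
    exact (not_countable_iff.mpr uncountable_Γ) h1
  have hw : ∀ G : Finset Γ, ∃ w : W, (∀ γ ∈ G, γ ∈ Γ0 → γ w = 0) ∧ θ w = 1 := by
    intro G
    obtain ⟨w, h1, h2⟩ := Γ.separate {γ | γ ∈ G ∧ γ ∈ Γ0} (G.finite_toSet.subset fun γ h => h.1)
      (γ := θ) (fun h => hθ (Submodule.span_mono (fun γ h => h.2) h))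
    exact ⟨w, fun γ hG h0 => h1 γ ⟨hG, h0⟩, h2⟩
  choose w hw0 hw1 using hw
  let ρ : Finset Γ → (B →L[ℂ] ℂ) := fun G =>
    ψ'.comp ((ContinuousLinearMap.mul ℂ B (i (S.L (w G)))).comp
      ((ContinuousLinearMap.mul ℂ B).flip (i (S.L (w G)))))
  have hρ : ∀ G x, ρ G x = ψ' (i (S.L (w G)) * (x * i (S.L (w G)))) := fun G x => rfl
  have hρn : ∀ G, ‖ρ G‖ ≤ 1 := by
    intro G
    refine ContinuousLinearMap.opNorm_le_bound _ zero_le_one (fun x => ?_)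
    rw [hρ]
    have hL : ‖i (S.L (w G))‖ ≤ 1 := (ni _).trans_le (S.norm_L _)
    calc ‖ψ' (i (S.L (w G)) * (x * i (S.L (w G))))‖
        ≤ ‖ψ'‖ * ‖i (S.L (w G)) * (x * i (S.L (w G)))‖ := ψ'.le_opNorm _
      _ ≤ 1 * (‖i (S.L (w G))‖ * (‖x‖ * ‖i (S.L (w G))‖)) := by
          rw [hψ.1.1]
          gcongr
          refine (norm_mul_le _ _).trans ?_
          gcongr
          exact norm_mul_le _ _
      _ ≤ 1 * (1 * (‖x‖ * 1)) := by gcongr
      _ = 1 * ‖x‖ := by ring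
  have hρp : ∀ G, Pos (ρ G) := by
    intro G y
    rw [hρ]
    have : i (S.L (w G)) * ((star y * y) * i (S.L (w G)))
        = star (y * i (S.L (w G))) * (y * i (S.L (w G))) := by
      rw [star_mul, ← map_star, S.L_star]; simp only [mul_assoc]
    rw [this]
    exact hψ.1.2 _
  have hρU : ∀ G γ, ρ G (i (S.U γ)) = sg (γ (w G)) := by
    intro G γ
    rw [hρ, ← map_mul, ← map_mul, ← mul_assoc, S.conj_U, hψ.2.1, map_smul, S.ψ_U, smul_eq_mul,
      mul_one]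
  let 𝒰 : Ultrafilter (Finset Γ) := Ultrafilter.of atTop
  obtain ⟨σ, hσn, hσp, hσ⟩ := ulim_pos 𝒰 ρ hρn hρp
  have h3 : ∀ γ ∈ Γ0, σ (i (S.U γ)) = 1 := by
    intro γ hγ
    refine ulim_const 𝒰 (hσ _) ?_
    have : ∀ᶠ F in (atTop : Filter (Finset Γ)), {γ} ≤ F := eventually_ge_atTop _
    refine (this.filter_mono (Ultrafilter.of_le _)).mono fun G hG => ?_
    rw [hρU, hw0 G γ (by simpa using hG) hγ, sg_zero]
  have h4 : σ (i (S.U θ)) = -1 := by
    refine ulim_const 𝒰 (hσ _) (Eventually.of_forall fun G => ?_)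
    rw [hρU, hw1, sg_one]
  have h5 : ∀ w, σ (b w) = 1 := by
    intro v
    by_contra hne
    have h6 : 0 < ‖σ (b v) - 1‖ := norm_pos_iff.mpr (sub_ne_zero.mpr hne)
    obtain ⟨m, hm⟩ := exists_nat_one_div_lt h6
    have h7 := hF v m σ hσp hσn fun γ hγ => h3 γ (Set.mem_iUnion.mpr ⟨v, Set.mem_iUnion.mpr ⟨m, hγ⟩⟩)
    linarith
  have h6 := P3 σ hσp hσn h5
  rw [h6, hψ.2.1, S.ψ_U] at h4
  norm_num at h4

end Sys

end Q89.TW
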