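import Mathlib
import Pool.Agent.Q89.TW.Mono
import Pool.Agent.Q89.TW.Ext

/-! The concrete algebra. -/

namespace Q89.TW

open Filter Topology HH

/-- The Hilbert space. -/
noncomputable abbrev H := HH W

theorem norm_sg (a : ZMod 2) : ‖sg a‖ = 1 := by
  rcases zm2 a with rfl | rfl <;> simp [sg_zero, sg_one]

/-- Multiplication by a character. -/
noncomputable def u0 (γ : Γ) : H →L[ℂ] H := mono (fun w => sg (γ w)) (fun _ => norm_sg _) (Equiv.refl _)

/-- Translation. -/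
noncomputable def l0 (v : W) : H →L[ℂ] H := mono (fun _ => 1) (fun _ => norm_one) (Equiv.addRight v)

theorem u0_apply (γ : Γ) (f : H) (w : W) : u0 γ f w = sg (γ w) * f w := rfl
theorem l0_apply (v : W) (f : H) (w : W) : l0 v f w = f (w + v) := by
  show 1 * f (w + v) = _
  rw [one_mul]

theorem u0_zero : u0 0 = 1 := by
  ext f w
  simp [u0_apply, sg_zero]

theorem u0_add (a b : Γ) : u0 (a + b) = u0 a * u0 b := by
  ext f w
  show u0 (a + b) f w = u0 a (u0 b f) w
  rw [u0_apply, u0_apply, u0_apply, LinearMap.add_apply, sg_add, mul_assoc]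

theorem u0_star (a : Γ) : star (u0 a) = u0 a := by
  apply mono_star_of_invol
  show u0 a * u0 a = 1
  rw [← u0_add, Sys.g2, u0_zero]

theorem l0_zero : l0 0 = 1 := by
  ext f w
  simp [l0_apply]

theorem l0_add (a b : W) : l0 (a + b) = l0 a * l0 b := by
  ext f w
  show l0 (a + b) f w = l0 a (l0 b f) w
  rw [l0_apply, l0_apply, l0_apply, add_assoc]

theorem l0_star (a : W) : star (l0 a) = l0 a := by
  apply mono_star_of_invol
  show l0 a * l0 a = 1
  rw [← l0_add, Sys.w2, l0_zero]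

theorem rel0 (w : W) (γ : Γ) : l0 w * u0 γ = sg (γ w) • (u0 γ * l0 w) := by
  ext f v
  show l0 w (u0 γ f) v = sg (γ w) * u0 γ (l0 w f) v
  rw [l0_apply, u0_apply, u0_apply, l0_apply, map_add, sg_add]
  ring

theorem l0_δ (v w : W) : l0 v (δ w) = δ (w + v) := by
  ext x
  rw [l0_apply, δ_apply, δ_apply]
  have : x + v = w ↔ x = w + v := by
    constructor
    · rintro rfl; rw [add_assoc, Sys.w2, add_zero]
    · rintro rfl; rw [add_assoc, Sys.w2, add_zero]
  simp [this]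

/-- Generators. -/
noncomputable def gens : Set (H →L[ℂ] H) := Set.range fun p : Γ × W => u0 p.1 * l0 p.2

/-- The algebra. -/
noncomputable def AA0 : StarSubalgebra ℂ (H →L[ℂ] H) := (StarAlgebra.adjoin ℂ gens).topologicalClosure

/-- The algebra, as a type. -/
noncomputable abbrev AA : Type := ↥AA0

noncomputable instance : CStarAlgebra AA :=
  StarSubalgebra.cstarAlgebra AA0 (h_closed := StarSubalgebra.isClosed_topologicalClosure _)

theorem adjoin_le : ((StarAlgebra.adjoin ℂ gens : StarSubalgebra ℂ (H →L[ℂ] H)) : Set (H →L[ℂ] H)) ⊆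
    Submodule.span ℂ gens := by
  intro x hx
  have hx' : x ∈ (StarAlgebra.adjoin ℂ gens).toSubalgebra := hx
  rw [StarAlgebra.adjoin_toSubalgebra] at hx'
  have hx2 : x ∈ Subalgebra.toSubmodule (Algebra.adjoin ℂ (gens ∪ star gens)) := hx'
  rw [Algebra.adjoin_eq_span] at hx2
  refine (Submodule.span_le.mpr ?_) hx2
  intro y hy
  have key : ∃ (c : ℂ) (p : Γ × W), y = c • (u0 p.1 * l0 p.2) := by
    induction hy using Submonoid.closure_induction with
    | mem z hz =>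
      rcases hz with ⟨p, rfl⟩ | hz
      · exact ⟨1, p, by simp⟩
      · obtain ⟨p, hp⟩ := hz
        refine ⟨sg (p.1 p.2), p, ?_⟩
        have : z = star (u0 p.1 * l0 p.2) := by
          have hp' : u0 p.1 * l0 p.2 = star z := hp
          rw [hp', star_star]
        rw [this, star_mul, u0_star, l0_star, rel0]
    | one => exact ⟨1, (0, 0), by simp [u0_zero, l0_zero]⟩
    | mul a b _ _ ha hb =>
      obtain ⟨c, p, rfl⟩ := ha
      obtain ⟨d, q, rfl⟩ := hb
      refine ⟨c * d * sg (q.1 p.2), (p.1 + q.1, p.2 + q.2), ?_⟩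
      have h5 : u0 p.1 * l0 p.2 * (u0 q.1 * l0 q.2) =
          sg (q.1 p.2) • (u0 (p.1 + q.1) * l0 (p.2 + q.2)) := by
        calc u0 p.1 * l0 p.2 * (u0 q.1 * l0 q.2) = u0 p.1 * (l0 p.2 * u0 q.1) * l0 q.2 := by
              simp only [mul_assoc]
          _ = sg (q.1 p.2) • (u0 p.1 * u0 q.1 * (l0 p.2 * l0 q.2)) := by
              rw [rel0]; simp only [mul_smul_comm, smul_mul_assoc, mul_assoc]
          _ = _ := by rw [← u0_add, ← l0_add]
      rw [smul_mul_smul_comm, h5, smul_smul]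
  obtain ⟨c, p, rfl⟩ := key
  exact Submodule.smul_mem _ _ (Submodule.subset_span ⟨p, rfl⟩)

theorem gens_mem (p : Γ × W) : u0 p.1 * l0 p.2 ∈ AA0 :=
  StarSubalgebra.le_topologicalClosure _ (StarAlgebra.subset_adjoin ℂ gens ⟨p, rfl⟩)

/-- Generator in the algebra. -/
noncomputable def UA (γ : Γ) : AA := ⟨u0 γ, by
  have := gens_mem (γ, 0)
  rwa [l0_zero, mul_one] at this⟩
/-- Generator in the algebra. -/
noncomputable def LA (w : W) : AA := ⟨l0 w, by
  have := gens_mem (0, w)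
  rwa [u0_zero, one_mul] at this⟩

theorem dense0 (a : AA) : a ∈ closure
    (Submodule.span ℂ (Set.range fun p : Γ × W => UA p.1 * LA p.2) : Set AA) := by
  rw [Metric.mem_closure_iff]
  intro ε hε
  have h1 : (a : H →L[ℂ] H) ∈ closure
      ((StarAlgebra.adjoin ℂ gens : StarSubalgebra ℂ (H →L[ℂ] H)) : Set (H →L[ℂ] H)) := a.2
  obtain ⟨p, hp, hd⟩ := Metric.mem_closure_iff.mp h1 ε hε
  have hp2 := adjoin_le hp
  let ι : AA →ₗ[ℂ] (H →L[ℂ] H) := AA0.subtype.toAlgHom.toLinearMap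
  have hι : ∀ x : AA, ι x = x := fun x => rfl
  have h3 : gens = ι '' (Set.range fun p : Γ × W => UA p.1 * LA p.2) := by
    ext x
    constructor
    · rintro ⟨p, rfl⟩; exact ⟨_, ⟨p, rfl⟩, rfl⟩
    · rintro ⟨_, ⟨p, rfl⟩, rfl⟩; exact ⟨p, rfl⟩
  have hp3 : p ∈ Submodule.span ℂ gens := hp2
  rw [h3, Submodule.span_image] at hp3
  obtain ⟨q, hq, rfl⟩ := hp3
  exact ⟨q, hq, hd⟩

/-- Vector functional. -/
noncomputable def vf (ξ : H) : AA →L[ℂ] ℂ :=
  LinearMap.mkContinuous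
    { toFun := fun a => inner ℂ ξ ((a : H →L[ℂ] H) ξ)
      map_add' := fun a b => by
        show inner ℂ ξ (((a : H →L[ℂ] H) + (b : H →L[ℂ] H)) ξ) = _
        rw [add_apply, inner_add_right]
      map_smul' := fun c a => by
        show inner ℂ ξ ((c • (a : H →L[ℂ] H)) ξ) = _
        rw [smul_apply, inner_smul_right]; rfl } (‖ξ‖ * ‖ξ‖) (fun a => by
      show ‖inner ℂ ξ ((a : H →L[ℂ] H) ξ)‖ ≤ _
      refine (norm_inner_le_norm _ _).trans ?_
      have : ‖(a : H →L[ℂ] H) ξ‖ ≤ ‖a‖ * ‖ξ‖ := (a : H →L[ℂ] H).le_opNorm ξ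
      calc ‖ξ‖ * ‖(a : H →L[ℂ] H) ξ‖ ≤ ‖ξ‖ * (‖a‖ * ‖ξ‖) := by gcongr
        _ = _ := by ring)

theorem vf_apply (ξ : H) (a : AA) : vf ξ a = inner ℂ ξ ((a : H →L[ℂ] H) ξ) := rfl

theorem vf_star_mul (ξ : H) (a : AA) : vf ξ (star a * a) = ((‖(a : H →L[ℂ] H) ξ‖ ^ 2 : ℝ) : ℂ) := by
  rw [vf_apply]
  have : ((star a * a : AA) : H →L[ℂ] H) ξ = ContinuousLinearMap.adjoint (a : H →L[ℂ] H)
    ((a : H →L[ℂ] H) ξ) := rfl
  rw [this, ContinuousLinearMap.adjoint_inner_right, inner_self_eq_norm_sq_to_K]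
  push_cast; rfl

theorem vf_pos (ξ : H) : Pos (vf ξ) := by
  intro b
  rw [vf_star_mul]
  exact ⟨by rw [Complex.ofReal_re]; positivity, Complex.ofReal_im _⟩

theorem vf_norm {ξ : H} (h : ‖ξ‖ = 1) : ‖vf ξ‖ ≤ 1 := by
  refine (LinearMap.mkContinuous_norm_le _ (by positivity) _).trans ?_
  rw [h]; norm_num

theorem exists_inv (F : Finset W) : ∃ ξ : H, ‖ξ‖ = 1 ∧ ∀ w ∈ F, l0 w ξ = ξ := by
  classical
  let V := Submodule.span (ZMod 2) (F : Set W)
  have hfin : Finite V := by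
    have : Module.Finite (ZMod 2) V := Module.Finite.span_of_finite _ F.finite_toSet
    exact Module.finite_of_finite (ZMod 2)
  let f : W → ℂ := fun w => if w ∈ V then 1 else 0
  have hf : Memℓp f (2 : ENNReal) := by
    apply mem_of_summable
    apply summable_of_hasFiniteSupport
    refine (Set.toFinite (V : Set W)).subset ?_
    intro w hw
    by_contra h
    apply hw
    have h' : w ∉ V := h
    simp [f, h']
  let η : H := ⟨f, hf⟩
  have hη : ∀ w, η w = if w ∈ V then 1 else 0 := fun w => rfl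
  have hne : η ≠ 0 := by
    intro h
    have h1 := hη 0
    rw [h, if_pos V.zero_mem] at h1
    exact zero_ne_one h1
  refine ⟨((‖η‖⁻¹ : ℝ) : ℂ) • η, ?_, fun w hw => ?_⟩
  · rw [norm_smul, Complex.norm_real, norm_inv, norm_norm, inv_mul_cancel₀ (norm_ne_zero_iff.mpr hne)]
  · rw [map_smul]
    congr 1
    ext v
    rw [l0_apply, hη, hη]
    have hwV : w ∈ V := Submodule.subset_span hw
    have : v + w ∈ V ↔ v ∈ V := ⟨fun h => by simpa using V.sub_mem h hwV, fun h => V.add_mem h hwV⟩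
    simp [this]

theorem exists_φ : ∃ φ : AA →L[ℂ] ℂ, ‖φ‖ ≤ 1 ∧ Pos φ ∧ ∀ w, φ (LA w) = 1 := by
  choose ξ h1 h2 using exists_inv
  let 𝒰 : Ultrafilter (Finset W) := Ultrafilter.of atTop
  obtain ⟨σ, hn, hp, hσ⟩ := ulim_pos 𝒰 (fun F => vf (ξ F)) (fun F => vf_norm (h1 F))
    (fun F => vf_pos _)
  refine ⟨σ, hn, hp, fun w => ulim_const 𝒰 (hσ _) ?_⟩
  have : ∀ᶠ F in (atTop : Filter (Finset W)), {w} ≤ F := eventually_ge_atTop _
  refine (this.filter_mono (Ultrafilter.of_le _)).mono fun F hF => ?_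
  show inner ℂ (ξ F) (l0 w (ξ F)) = 1
  rw [h2 F w (by simpa using hF), inner_self_eq_norm_sq_to_K, h1]
  norm_num

/-- The system. -/
noncomputable def sys : Sys AA where
  U := UA
  L := LA
  U_zero := Subtype.ext u0_zero
  U_add a b := Subtype.ext (u0_add a b)
  U_star a := Subtype.ext (u0_star a)
  L_zero := Subtype.ext l0_zero
  L_add a b := Subtype.ext (l0_add a b)
  L_star a := Subtype.ext (l0_star a)
  rel w γ := Subtype.ext (rel0 w γ)
  dense := dense0
  ψ := vf (δ 0)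
  ψ_norm := vf_norm (norm_δ 0)
  ψ_pos := vf_pos _
  ψ_val γ w := by
    rw [vf_apply, inner_δ]
    show u0 γ (l0 w (δ 0)) 0 = _
    rw [l0_δ, u0_apply, δ_apply, map_zero, sg_zero, one_mul, zero_add]
    by_cases h : w = 0
    · simp [h]
    · rw [if_neg h, if_neg (fun h' => h h'.symm)]
  faithful a h := by
    apply Subtype.ext
    apply ext_δ
    intro w
    have h1 := h w
    rw [vf_star_mul] at h1
    have h2 : ((a * LA w : AA) : H →L[ℂ] H) (δ 0) = (a : H →L[ℂ] H) (δ w) := by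
      show (a : H →L[ℂ] H) (l0 w (δ 0)) = _
      rw [l0_δ, zero_add]
    rw [h2] at h1
    have h3 : ‖(a : H →L[ℂ] H) (δ w)‖ ^ 2 = 0 := by exact_mod_cast h1
    simpa using h3
  φ := exists_φ.choose
  φ_norm := exists_φ.choose_spec.1
  φ_pos := exists_φ.choose_spec.2.1
  φ_val := exists_φ.choose_spec.2.2

end Q89.TW
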